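import Pool.Agent.H91.JS

set_option autoImplicit false

open H91JS in
theorem Pool.Agent.Results.MP_6503f0_an.SepCont.result :
   
    ∀ (A : Type) [NormedAddCommGroup A] [NormedSpace ℂ A] [CompleteSpace A]
      (m : A →L[ℂ] A →L[ℂ] A) (s : A → A), IsJB m s → ∀ x : DD A, IsMult m x →
      (∀ y : DD A, IsMult m y → IsMult m (arens m x y) ∧ IsMult m (arens m y x)) ∧
      ∀ (I : Type) (l : Filter I) (f : I → DD A) (y : DD A), (∀ i, IsMult m (f i)) →
        IsMult m y → JLim m l f y →
        JLim m l (fun i => arens m x (f i)) (arens m x y) ∧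
          JLim m l (fun i => arens m (f i) x) (arens m y x) :=
  sep
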